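import Pool.Agent.MWGP.Stmts

/-!
# Row DIG of block MWGP (helper34): the lattice is distributive
-/

set_option autoImplicit false

namespace Pool.Agent.MWGP.H34

open Pool.Agent.Helper14_MV Pool.Agent.Helper2_MV Pool.Agent.MVO Pool.Agent.MWL Pool.Agent.MWS
  Pool.Agent.MWH

/-- row DIG -/
theorem dig (tlmn : MWHP.TlmnStmt) (swh : MWHP.SwhStmt) (edg : EdgStmt) : DigStmt := by
  intro n β h
  exact tlmn n β h.toBaseH.toBasN (swh n β h.toBaseH) (edg n β h)

end Pool.Agent.MWGP.H34
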